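import Pool.Agent.H29.HMF.Stmts

set_option autoImplicit false

open Matrix MeasureTheory

namespace Pool.HMF

theorem em_mul (i : Fin 2) (x y : ℤ√2) : em i (x * y) = em i x * em i y := by
  have h2 : √(2:ℝ) * √2 = 2 := Real.mul_self_sqrt (by norm_num)
  fin_cases i
  · simp only [em, Zsqrtd.re_mul, Zsqrtd.im_mul]
    simp
    linear_combination (-(x.im : ℝ) * y.im) * h2
  · simp only [em, Zsqrtd.re_mul, Zsqrtd.im_mul]
    simp
    linear_combination (-(x.im : ℝ) * y.im) * h2

theorem em_add (i : Fin 2) (x y : ℤ√2) : em i (x + y) = em i x + em i y := by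
  simp only [em, Zsqrtd.re_add, Zsqrtd.im_add]
  push_cast
  ring

theorem em_one (i : Fin 2) : em i 1 = 1 := by simp [em]

theorem em_zero (i : Fin 2) : em i 0 = 0 := by simp [em]

noncomputable def eh (i : Fin 2) : ℤ√2 →+* ℝ where
  toFun := em i
  map_one' := em_one i
  map_mul' := em_mul i
  map_zero' := em_zero i
  map_add' := em_add i

theorem em_norm (x : ℤ√2) : em 0 x * em 1 x = ((x.re ^ 2 - 2 * x.im ^ 2 : ℤ) : ℝ) := by
  have h2 : √(2:ℝ) * √2 = 2 := Real.mul_self_sqrt (by norm_num)
  simp only [em]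
  simp
  linear_combination (-(x.im : ℝ) ^ 2) * h2

theorem norm_ne (x : ℤ√2) (hx : x ≠ 0) : x.re ^ 2 - 2 * x.im ^ 2 ≠ 0 := by
  intro h
  apply hx
  have hs : ¬ IsSquare (2 : ℤ) := by
    rw [show (2:ℤ) = ((2:ℕ):ℤ) from rfl]
    intro h
    have h1 := Int.prime_two.irreducible
    exact h1.not_isSquare h
  have h1 : x.re * x.re = 2 * x.im * x.im := by linarith [h]
  by_cases h0 : x.im = 0
  · have : x.re = 0 := by
      rw [h0] at h1
      simpa using h1
    exact Zsqrtd.ext this h0
  · exfalso
    have h3 : (x.im) ∣ x.re := by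
      have : x.im ^ 2 ∣ x.re ^ 2 := ⟨2, by linarith⟩
      exact (Int.pow_dvd_pow_iff (by norm_num)).1 this
    obtain ⟨k, hk⟩ := h3
    apply hs
    refine ⟨k, ?_⟩
    have : x.im ^ 2 * (2 - k * k) = 0 := by rw [hk] at h1; linarith
    rcases mul_eq_zero.1 this with h | h
    · exact absurd (pow_eq_zero_iff (by norm_num) |>.1 h) h0
    · linarith

theorem bas_thm : BASS := by
  refine ⟨em_mul, em_add, fun i x => (eh i).map_neg x, em_one, em_zero, ?_, em_norm, ?_, ?_, ?_, ?_, ?_, ?_⟩
  · intro i x y h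
    by_contra hne
    have h1 : x - y ≠ 0 := sub_ne_zero.2 hne
    have h2 : em i (x - y) = 0 := by
      have := (eh i).map_sub x y
      change em i (x - y) = em i x - em i y at this
      rw [this, h, sub_self]
    have h3 := em_norm (x - y)
    have h4 : em 0 (x - y) * em 1 (x - y) = 0 := by
      fin_cases i
      · change em 0 (x - y) = 0 at h2
        rw [h2, zero_mul]
      · change em 1 (x - y) = 0 at h2
        rw [h2, mul_zero]
    rw [h4] at h3
    exact norm_ne _ h1 (by exact_mod_cast h3.symm)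
  · intro x hx
    rw [em_norm]
    have := norm_ne x hx
    have h : (1 : ℤ) ≤ |x.re ^ 2 - 2 * x.im ^ 2| := Int.one_le_abs this
    exact_mod_cast h
  · intro i A B
    exact Matrix.map_mul (f := eh i)
  · intro i A
    exact ((eh i).map_det A).symm
  · intro i A
    exact (AddMonoidHom.map_trace (eh i).toAddMonoidHom A).symm
  · intro i
    exact Matrix.map_one (em i) (em_zero i) (em_one i)
  · intro i A v
    funext a
    exact (eh i).map_mulVec A v a

end Pool.HMF
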