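import Pool.Agent.H29.HMF.Stmts

/-!
# MP_e1ba20, Hilbert modular surface: rows CL2, UP2, FN2
-/

set_option autoImplicit false

open Matrix MeasureTheory

namespace Pool.HMF

open Pool.FLT

theorem hSEQ29 : Pool.FL4.SEQStmt := Pool.FL4.seq

theorem hPOS29 : Pool.FL4.POSStmt := Pool.FL4.pos hSEQ29

theorem hDET29 : Pool.FL4.DETStmt := Pool.FL4.det hSEQ29 hPOS29

theorem hUNI29 : Pool.FL4.UNIStmt :=
  Pool.FL4.uni hPOS29 (Pool.FL4.act hPOS29) (Pool.FL4.alg hSEQ29 hPOS29) (Pool.FL4.lgs hSEQ29 hPOS29)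

theorem hRED29 : Pool.FL4.REDStmt :=
  Pool.FL4.red Pool.FL4.box hUNI29 (Pool.FL4.con hSEQ29 hPOS29 hDET29)

theorem hIJ429 : Pool.FL4.IJ4Stmt := Pool.FL4.ij4 hSEQ29 hPOS29 hDET29

theorem cl2_thm (hRL2 : RL2S) : CL2S := by
  classical
  obtain ⟨K, hK, h1⟩ := hRED29
  obtain ⟨C, hC, h2⟩ := Pool.FL4.fb4
  refine ⟨C * K ^ 3, by positivity, ?_⟩
  intro i hi s hs S hS h
  have hi' : (1 : ℝ) ≤ i := by exact_mod_cast hi
  have hρ : (1 : ℝ) ≤ K * i := by nlinarith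
  obtain ⟨hfin, hcard⟩ := h2 (Pool.FL4.nrm (Pool.FL4.G0 i)) (K * i) hρ
  have key : ∀ s' : ℕ, s' ∈ S → ∃ (d' : Fin 4 → ℝ) (x : aa 4), Pool.FL4.Eqv i (s : ℤ) (s' : ℤ) d' ∧
      x ∈ Pool.FLT.Lam (Pool.FL4.nrm (Pool.FL4.G0 i)) ∧ ‖x‖ ≤ K * i ∧ ∀ j, |d' j| = Real.exp (co x j) := by
    intro s' hs'
    obtain ⟨γ, d, hd⟩ := h s' hs'
    obtain ⟨d', hd'⟩ := hRL2 i hi (s : ℤ) (s' : ℤ) γ d hd
    exact h1 i hi s hs s' (hS hs') d' hd'
  choose! f x hf using key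
  have h3 : S.card ≤ ({d : Fin 4 → ℝ | ∃ x ∈ Pool.FLT.Lam (Pool.FL4.nrm (Pool.FL4.G0 i)), ‖x‖ ≤ K * i ∧
      ∀ j, |d j| = Real.exp (co x j)}).ncard := by
    rw [Set.ncard_eq_toFinset_card _ hfin]
    refine Finset.card_le_card_of_injOn f ?_ ?_
    · intro s' hs'
      obtain ⟨-, h4, h5, h6⟩ := hf s' hs'
      rw [Finset.mem_coe, Set.Finite.mem_toFinset]
      exact ⟨x s', h4, h5, h6⟩
    · intro s1 hs1 s2 hs2 h12
      have e1 := (hf s1 hs1).1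
      have e2 := (hf s2 hs2).1
      have h12' : f s1 = f s2 := h12
      rw [← h12'] at e2
      exact hIJ429 i hi s1 (hS hs1) s2 (hS hs2) (s : ℤ) (f s1) e1 e2
  calc (S.card : ℝ) ≤ _ := by exact_mod_cast h3
    _ ≤ C * (K * i) ^ 3 := hcard
    _ = _ := by ring

theorem up2_thm (hSHT : SHTS) (hIR2 : IR2S) (hCT2 : CT2S) : UP2S := by
  obtain ⟨C, hC, h1⟩ := hCT2
  refine ⟨C * 3, by positivity, ?_⟩
  intro T hT
  have hs1 : 1 ≤ √T := by
    rw [← Real.sqrt_one]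
    exact Real.sqrt_le_sqrt hT
  have hE : 1 ≤ 3 * √T := by linarith
  obtain ⟨hfin, hcard⟩ := h1 (3 * √T) hE
  have hsub : NX T ⊆ {F | ∃ g : Fin 2 → S2, F = fl g ∧ Irr g ∧ ∃ l ∈ Lam g, l ≠ 0 ∧
      ∀ i, |l i| ≤ 3 * √T} := by
    rintro F ⟨g, hF, B, hB, hv, hFB⟩
    have hfl : fl g = flB g B := by rw [← hF, hFB]
    obtain ⟨l, hl, hl0, hlb⟩ := hSHT g B T hT hB hv hfl
    refine ⟨g, hF, hIR2 g B hB hfl, l, hl, hl0, fun i => (hlb i).trans ?_⟩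
    linarith
  refine ⟨hfin.subset hsub, ?_⟩
  have h2 : ((NX T).ncard : ℝ) ≤ ({F | ∃ g : Fin 2 → S2, F = fl g ∧ Irr g ∧ ∃ l ∈ Lam g, l ≠ 0 ∧
      ∀ i, |l i| ≤ 3 * √T}.ncard : ℝ) := by
    exact_mod_cast Set.ncard_le_ncard hsub hfin
  refine h2.trans (hcard.trans (le_of_eq ?_))
  rw [Real.sqrt_eq_rpow]
  congr 1
  ring

theorem fn2_thm (hLL2 : LL2S) (hMB2 : MB2S) (hCL2 : CL2S) (hAB2 : AB2S) : FN2S := by
  obtain ⟨C1, hC1, h2⟩ := hCL2
  set c1 : ℝ := 1 / (6400 + 1) with hc1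
  have hc1pos : 0 < c1 := by positivity
  have hc1le : c1 ≤ 1 := by
    rw [hc1, div_le_one (by positivity)]
    norm_num
  have hC1c1 : 6400 * c1 < 1 := by
    rw [hc1]
    norm_num
  -- eventually `4 C1 x^3 ≤ exp (x / 8)`
  have hev : ∃ L0 : ℝ, ∀ x ≥ L0, 4 * (C1 * x ^ 3) ≤ Real.exp (x / 8) := by
    have h3 := Real.tendsto_pow_mul_exp_neg_atTop_nhds_zero 3
    have h4 : Filter.Tendsto (fun L : ℝ => L / 8) Filter.atTop Filter.atTop :=
      Filter.tendsto_id.atTop_div_const (by norm_num)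
    have h5 := h3.comp h4
    have h6 : 0 < 1 / (4 * C1 * 8 ^ 3) := by positivity
    have h7 := h5.eventually (gt_mem_nhds h6)
    obtain ⟨L0, hL0⟩ := Filter.eventually_atTop.mp h7
    refine ⟨L0, fun L hL => ?_⟩
    have h8 := hL0 L hL
    simp only [Function.comp] at h8
    rw [lt_div_iff₀ (by positivity)] at h8
    have h9 : (L / 8) ^ 3 * Real.exp (-(L / 8)) * (4 * C1 * 8 ^ 3) =
        (4 * (C1 * L ^ 3)) * Real.exp (-(L / 8)) := by ring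
    rw [h9, Real.exp_neg, ← div_eq_mul_inv, div_lt_one (Real.exp_pos _)] at h8
    exact h8.le
  obtain ⟨L0, hL0⟩ := hev
  set L1 : ℝ := max L0 2 with hL1
  have hL1pos : 2 ≤ L1 := le_max_right _ _
  refine ⟨c1 / 16, max 1 (((L1 + 1) / c1) ^ 2), by positivity, ?_⟩
  intro T hT hfin
  have hT1 : 1 ≤ T := (le_max_left _ _).trans hT
  have hT2 : ((L1 + 1) / c1) ^ 2 ≤ T := (le_max_right _ _).trans hT
  have hTr : 0 ≤ T ^ (1 / 2 : ℝ) := Real.rpow_nonneg (by linarith) _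
  have hTp : (T ^ (1 / 2 : ℝ)) ^ 2 = T := by
    rw [← Real.rpow_natCast, ← Real.rpow_mul (by linarith)]
    norm_num
  set L : ℝ := c1 * T ^ (1 / 2 : ℝ) with hL
  have hLL1 : L1 + 1 ≤ L := by
    have h3 : (L1 + 1) / c1 ≤ T ^ (1 / 2 : ℝ) := by
      refine le_of_sq_le_sq ?_ hTr
      rw [hTp]
      exact hT2
    rw [div_le_iff₀ hc1pos] at h3
    rw [hL]
    linarith
  set i : ℕ := ⌊L⌋₊ with hi
  have hiL : (i : ℝ) ≤ L := Nat.floor_le (by linarith)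
  have hLi : L < (i : ℝ) + 1 := Nat.lt_floor_add_one _
  have hiL1 : L1 ≤ (i : ℝ) := by linarith
  have hi2 : (2 : ℝ) ≤ i := by linarith
  have hi1 : 1 ≤ i := by
    have : (1 : ℝ) ≤ i := by linarith
    exact_mod_cast this
  have hiT : 16 * (20 * (i : ℝ)) ^ 2 < T := by
    have h3 : (i : ℝ) ^ 2 ≤ c1 * T := by
      calc (i : ℝ) ^ 2 ≤ L ^ 2 := pow_le_pow_left₀ (by positivity) hiL 2
        _ = c1 ^ 2 * T := by rw [hL, mul_pow, hTp]
        _ ≤ c1 * T := by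
            refine mul_le_mul_of_nonneg_right ?_ (by linarith)
            nlinarith
    calc 16 * (20 * (i : ℝ)) ^ 2 = 6400 * (i : ℝ) ^ 2 := by ring
      _ ≤ 6400 * (c1 * T) := mul_le_mul_of_nonneg_left h3 (by positivity)
      _ = (6400 * c1) * T := by ring
      _ < 1 * T := mul_lt_mul_of_pos_right hC1c1 (by linarith)
      _ = T := one_mul T
  -- the flats
  obtain ⟨A, B, C, D, hA, hB, hC, hD, hdet, hlam⟩ := hLL2 i hi1
  have hR : (1 : ℝ) ≤ 20 * i := by linarith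
  have hmem : ∀ s : ℕ, fl (gs i (s : ℤ)) ∈ NX T := by
    intro s
    exact hMB2 _ (20 * i) A B C D hR hA hB hC hD hdet (hlam (s : ℤ)).1 (hlam (s : ℤ)).2 T hiT
  -- the number of parameters
  obtain ⟨-, -, hQ0, -, -, -, -, h2i⟩ := Pool.FL4.seq i
  have hodd : Odd (4 * Pool.FL4.Q i + 1).toNat := by
    refine ⟨(2 * Pool.FL4.Q i).toNat, ?_⟩
    omega
  have hcard2 := Pool.FL4.sie _ hodd
  have h2N : 2 ^ i ≤ (4 * Pool.FL4.Q i + 1).toNat := by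
    have h3 : ((2 ^ i : ℕ) : ℤ) ≤ (((4 * Pool.FL4.Q i + 1).toNat : ℕ) : ℤ) := by
      rw [Int.toNat_of_nonneg (by omega)]
      push_cast
      exact h2i
    exact_mod_cast h3
  have hcard : Real.exp ((i : ℝ) / 4) ≤ ((Pool.FL4.SS i).card : ℝ) := by
    refine le_of_sq_le_sq ?_ (by positivity)
    have h3 : ((2 ^ i : ℕ) : ℝ) ≤ (((Pool.FL4.SS i).card ^ 2 : ℕ) : ℝ) := by
      exact_mod_cast h2N.trans hcard2
    push_cast at h3
    refine le_trans ?_ h3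
    rw [← Real.exp_nat_mul]
    have h4 : ((2 : ℕ) : ℝ) * ((i : ℝ) / 4) = (i : ℝ) * (1 / 2) := by
      push_cast
      ring
    rw [h4, Real.exp_nat_mul]
    refine pow_le_pow_left₀ (Real.exp_pos _).le ?_ i
    have h5 : Real.exp (1 / 2) ^ 2 < 4 := by
      rw [← Real.exp_nat_mul]
      have h6 : ((2 : ℕ) : ℝ) * (1 / 2) = 1 := by norm_num
      rw [h6]
      linarith [Real.exp_one_lt_d9]
    nlinarith [Real.exp_pos (1 / 2)]
  -- the fibres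
  classical
  have hK : (0 : ℝ) ≤ C1 * (i : ℝ) ^ 3 := by positivity
  have hin : ∀ s ∈ Pool.FL4.SS i, ∀ S' : Finset ℕ, S' ⊆ Pool.FL4.SS i →
      (∀ s' ∈ S', ∃ (γ : HM) (d : Fin 2 → Fin 2 → ℝ), ∀ v, (gs i (s' : ℤ) v).1 =
        cm v γ.1 * (gs i (s : ℤ) v).1 * diagonal (d v)) → (S'.card : ℝ) ≤ C1 * (i : ℝ) ^ 3 :=
    fun s hs S' hS' h => h2 i hi1 s hs S' hS' h
  have habs := hAB2 (Pool.FL4.SS i) (fun s : ℕ => gs i (s : ℤ)) (C1 * (i : ℝ) ^ 3) hK hin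
  have hfib : ∀ F ∈ hfin.toFinset,
      (((Pool.FL4.SS i).filter fun s : ℕ => fl (gs i (s : ℤ)) = F).card : ℝ) ≤
        4 * (C1 * (i : ℝ) ^ 3) := by
    intro F hF
    have h3 := habs ((Pool.FL4.SS i).filter fun s : ℕ => fl (gs i (s : ℤ)) = F)
      (Finset.filter_subset _ _)
    refine h3 ?_
    intro s hs s' hs'
    rw [Finset.mem_filter] at hs hs'
    exact hs.2.trans hs'.2.symm
  have hcount : ((Pool.FL4.SS i).card : ℝ) ≤ (NX T).ncard * (4 * (C1 * (i : ℝ) ^ 3)) := by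
    have h3 : (Pool.FL4.SS i).card =
        ∑ F ∈ hfin.toFinset, ((Pool.FL4.SS i).filter fun s : ℕ => fl (gs i (s : ℤ)) = F).card := by
      refine Finset.card_eq_sum_card_fiberwise fun s _ => ?_
      rw [Finset.mem_coe, Set.Finite.mem_toFinset]
      exact hmem s
    have h4 : ((Pool.FL4.SS i).card : ℝ) = ∑ F ∈ hfin.toFinset,
        (((Pool.FL4.SS i).filter fun s : ℕ => fl (gs i (s : ℤ)) = F).card : ℝ) := by
      exact_mod_cast congrArg (Nat.cast : ℕ → ℝ) h3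
    rw [h4]
    refine (Finset.sum_le_sum hfib).trans ?_
    rw [Finset.sum_const, nsmul_eq_mul, Set.ncard_eq_toFinset_card _ hfin]
  have hb := hL0 (i : ℝ) ((le_max_left L0 2).trans hiL1)
  have h5 : Real.exp ((i : ℝ) / 4) ≤ (NX T).ncard * Real.exp ((i : ℝ) / 8) :=
    hcard.trans (hcount.trans (mul_le_mul_of_nonneg_left hb (by positivity)))
  have h6 : Real.exp ((i : ℝ) / 4) = Real.exp ((i : ℝ) / 8) * Real.exp ((i : ℝ) / 8) := by
    rw [← Real.exp_add]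
    congr 1
    ring
  rw [h6] at h5
  have h7 : Real.exp ((i : ℝ) / 8) ≤ (NX T).ncard := le_of_mul_le_mul_right h5 (Real.exp_pos _)
  refine le_trans (Real.exp_le_exp.mpr ?_) h7
  have h8 : c1 / 16 * T ^ (1 / 2 : ℝ) = L / 16 := by
    rw [hL]
    ring
  rw [h8]
  linarith

end Pool.HMF
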