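import Pool.Agent.H29.HMF.Stmts2
import Pool.Agent.H29.HMF.CL2

/-!
# MP_e1ba20, Hilbert modular surfaces: rows GTE, GUP, GFN
-/

set_option autoImplicit false

open Matrix MeasureTheory

namespace Pool.HMF

open Pool.HMG (flat flats)

theorem gte_thm : (∀ (i : Fin 2) (A B : Matrix (Fin 2) (Fin 2) (ℤ√2)), cm i (A * B) = cm i A * cm i B) →
    GTES := by
  intro hmul Γ g g' h
  have key : ∀ g1 g2 : Fin 2 → S2, flat Γ g1 Set.univ = flat Γ g2 Set.univ → fl g1 ⊆ fl g2 := by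
    intro g1 g2 h12 u hu
    obtain ⟨γ, v, -, hu⟩ := hu
    choose k hk hu using hu
    -- the point `g1 dg v k`
    let p : Fin 2 → S2 := fun i => ⟨(g1 i).1 * dg (v i) * (k i).1, by
      rw [Matrix.det_mul, Matrix.det_mul, (g1 i).2, (k i).2, dg, Matrix.det_diagonal,
        Fin.prod_univ_two]
      simp [← Real.exp_add]⟩
    have hp : p ∈ flat Γ g1 Set.univ := by
      refine ⟨1, Γ.one_mem, v, trivial, fun i => ⟨k i, hk i, ?_⟩⟩
      have e1 : ((1 : HM).1.map (Pool.HMG.em i)) = (1 : Matrix (Fin 2) (Fin 2) ℝ) := by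
        ext a b
        fin_cases a <;> fin_cases b <;> simp [Pool.HMG.em]
      change (g1 i).1 * dg (v i) * (k i).1 = ((1 : HM).1.map (Pool.HMG.em i)) * (g1 i).1 * dg (v i) * (k i).1
      rw [e1, one_mul]
    rw [h12] at hp
    obtain ⟨γ', -, v', -, hp'⟩ := hp
    refine ⟨γ * γ', v', trivial, fun i => ?_⟩
    obtain ⟨k', hk', hp''⟩ := hp' i
    refine ⟨k', hk', ?_⟩
    have e2 : (g1 i).1 * dg (v i) * (k i).1 = cm i γ'.1 * (g2 i).1 * dg (v' i) * k'.1 := hp''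
    have e3 : (γ * γ').1 = γ.1 * γ'.1 := rfl
    rw [hu i, e3, hmul]
    calc cm i γ.1 * (g1 i).1 * dg (v i) * (k i).1 = cm i γ.1 * ((g1 i).1 * dg (v i) * (k i).1) := by
          simp only [Matrix.mul_assoc]
      _ = cm i γ.1 * (cm i γ'.1 * (g2 i).1 * dg (v' i) * k'.1) := by rw [e2]
      _ = _ := by simp only [Matrix.mul_assoc]
  exact Set.Subset.antisymm (key g g' h) (key g' g h.symm)

theorem fl_of_flat (Γ : Subgroup HM) (g : Fin 2 → S2) (B : Set (Fin 2 → ℝ))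
    (hmul : ∀ (i : Fin 2) (A B : Matrix (Fin 2) (Fin 2) (ℤ√2)), cm i (A * B) = cm i A * cm i B)
    (h : flat Γ g Set.univ = flat Γ g B) : fl g = flB g B := by
  refine Set.Subset.antisymm ?_ ?_
  · intro u hu
    obtain ⟨γ, v, -, hu⟩ := hu
    choose k hk hu using hu
    let p : Fin 2 → S2 := fun i => ⟨(g i).1 * dg (v i) * (k i).1, by
      rw [Matrix.det_mul, Matrix.det_mul, (g i).2, (k i).2, dg, Matrix.det_diagonal,
        Fin.prod_univ_two]
      simp [← Real.exp_add]⟩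
    have hp : p ∈ flat Γ g Set.univ := by
      refine ⟨1, Γ.one_mem, v, trivial, fun i => ⟨k i, hk i, ?_⟩⟩
      have e1 : ((1 : HM).1.map (Pool.HMG.em i)) = (1 : Matrix (Fin 2) (Fin 2) ℝ) := by
        ext a b
        fin_cases a <;> fin_cases b <;> simp [Pool.HMG.em]
      change (g i).1 * dg (v i) * (k i).1 = ((1 : HM).1.map (Pool.HMG.em i)) * (g i).1 * dg (v i) * (k i).1
      rw [e1, one_mul]
    rw [h] at hp
    obtain ⟨γ', -, v', hv', hp'⟩ := hp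
    refine ⟨γ * γ', v', hv', fun i => ?_⟩
    obtain ⟨k', hk', hp''⟩ := hp' i
    refine ⟨k', hk', ?_⟩
    have e2 : (g i).1 * dg (v i) * (k i).1 = cm i γ'.1 * (g i).1 * dg (v' i) * k'.1 := hp''
    have e3 : (γ * γ').1 = γ.1 * γ'.1 := rfl
    rw [hu i, e3, hmul]
    calc cm i γ.1 * (g i).1 * dg (v i) * (k i).1 = cm i γ.1 * ((g i).1 * dg (v i) * (k i).1) := by
          simp only [Matrix.mul_assoc]
      _ = cm i γ.1 * (cm i γ'.1 * (g i).1 * dg (v' i) * k'.1) := by rw [e2]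
      _ = _ := by simp only [Matrix.mul_assoc]
  · rintro u ⟨γ, v, -, hu⟩
    exact ⟨γ, v, trivial, hu⟩

theorem gup_thm (hBAS : BASS) (hUP2 : UP2S) (hGFB : GFBS) : GUPS := by
  classical
  have hmul := hBAS.2.2.2.2.2.2.2.2.1
  intro Γ hΓ
  obtain ⟨C, hC, h1⟩ := hUP2
  refine ⟨C + Γ.index, by positivity, ?_⟩
  intro T hT
  obtain ⟨hfin, hcard⟩ := h1 T hT
  -- the map to the flats of the full group
  have hcov : flats Γ T ⊆ ⋃ F0 ∈ hfin.toFinset, {F : Set (Fin 2 → S2) | ∃ g, F = flat Γ g Set.univ ∧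
      fl g = F0} := by
    rintro F ⟨g, hF, B, hB, hv, hFB⟩
    rw [Set.mem_iUnion₂]
    refine ⟨fl g, ?_, g, hF, rfl⟩
    rw [Set.Finite.mem_toFinset]
    exact ⟨g, rfl, B, hB, hv, fl_of_flat Γ g B hmul (by rw [← hF, hFB])⟩
  have hfib : ∀ F0 ∈ hfin.toFinset, ({F : Set (Fin 2 → S2) | ∃ g, F = flat Γ g Set.univ ∧
      fl g = F0}).Finite ∧ ({F : Set (Fin 2 → S2) | ∃ g, F = flat Γ g Set.univ ∧
      fl g = F0}).ncard ≤ Γ.index := by
    intro F0 hF0
    rw [Set.Finite.mem_toFinset] at hF0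
    obtain ⟨g0, hg0, -⟩ := hF0
    rw [hg0]
    exact hGFB Γ hΓ g0
  have hUfin : (⋃ F0 ∈ hfin.toFinset, {F : Set (Fin 2 → S2) | ∃ g, F = flat Γ g Set.univ ∧
      fl g = F0}).Finite :=
    Set.Finite.biUnion (Finset.finite_toSet _) fun F0 hF0 => (hfib F0 hF0).1
  refine ⟨hUfin.subset hcov, ?_⟩
  have h2 : (flats Γ T).ncard ≤ (NX T).ncard * Γ.index := by
    refine (Set.ncard_le_ncard hcov hUfin).trans ?_
    have h3 : (⋃ F0 ∈ hfin.toFinset, {F : Set (Fin 2 → S2) | ∃ g, F = flat Γ g Set.univ ∧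
        fl g = F0}).ncard ≤ ∑ F0 ∈ hfin.toFinset, ({F : Set (Fin 2 → S2) | ∃ g, F = flat Γ g Set.univ ∧
        fl g = F0}).ncard := by
      exact Finset.set_ncard_biUnion_le _ _
    refine h3.trans ((Finset.sum_le_sum fun F0 hF0 => (hfib F0 hF0).2).trans ?_)
    rw [Finset.sum_const, smul_eq_mul, Set.ncard_eq_toFinset_card _ hfin]
  have h3 : ((flats Γ T).ncard : ℝ) ≤ (NX T).ncard * Γ.index := by exact_mod_cast h2
  have hi0 : (0 : ℝ) ≤ Γ.index := Nat.cast_nonneg _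
  have hT2 : 1 ≤ T ^ (1 / 2 : ℝ) := Real.one_le_rpow hT (by norm_num)
  have h4 : (Γ.index : ℝ) ≤ Real.exp (Γ.index * T ^ (1 / 2 : ℝ)) := by
    have h5 := Real.add_one_le_exp ((Γ.index : ℝ) * T ^ (1 / 2 : ℝ))
    nlinarith
  calc ((flats Γ T).ncard : ℝ) ≤ (NX T).ncard * Γ.index := h3
    _ ≤ Real.exp (C * T ^ (1 / 2 : ℝ)) * Real.exp (Γ.index * T ^ (1 / 2 : ℝ)) :=
        mul_le_mul hcard h4 hi0 (Real.exp_pos _).le
    _ = _ := by
        rw [← Real.exp_add]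
        congr 1
        ring

theorem gfn_thm (hLL2 : LL2S) (hGMB : GMBS) (hCL2 : CL2S) (hAB2 : AB2S) (hGTE : GTES) : GFNS := by
  intro Γ hΓ
  obtain ⟨C0, hC0, hM⟩ := hGMB Γ hΓ
  obtain ⟨C1, hC1, h2⟩ := hCL2
  set c1 : ℝ := 1 / (400 * C0 + 1) with hc1
  have hc1pos : 0 < c1 := by positivity
  have hc1le : c1 ≤ 1 := by
    rw [hc1, div_le_one (by positivity)]
    linarith
  have hC1c1 : 400 * C0 * c1 < 1 := by
    rw [hc1, mul_one_div, div_lt_one (by positivity)]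
    linarith
  -- eventually `4 C1 x^3 ≤ exp (x / 8)`
  have hev : ∃ L0 : ℝ, ∀ x ≥ L0, 4 * (C1 * x ^ 3) ≤ Real.exp (x / 8) := by
    have h3 := Real.tendsto_pow_mul_exp_neg_atTop_nhds_zero 3
    have h4 : Filter.Tendsto (fun L : ℝ => L / 8) Filter.atTop Filter.atTop :=
      Filter.tendsto_id.atTop_div_const (by norm_num)
    have h5 := h3.comp h4
    have h6 : 0 < 1 / (4 * C1 * 8 ^ 3) := by positivity
    have h7 := h5.eventually (gt_mem_nhds h6)
    obtain ⟨L0, hL0⟩ := Filter.eventually_atTop.mp h7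
    refine ⟨L0, fun L hL => ?_⟩
    have h8 := hL0 L hL
    simp only [Function.comp] at h8
    rw [lt_div_iff₀ (by positivity)] at h8
    have h9 : (L / 8) ^ 3 * Real.exp (-(L / 8)) * (4 * C1 * 8 ^ 3) =
        (4 * (C1 * L ^ 3)) * Real.exp (-(L / 8)) := by ring
    rw [h9, Real.exp_neg, ← div_eq_mul_inv, div_lt_one (Real.exp_pos _)] at h8
    exact h8.le
  obtain ⟨L0, hL0⟩ := hev
  set L1 : ℝ := max L0 2 with hL1
  have hL1pos : 2 ≤ L1 := le_max_right _ _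
  refine ⟨c1 / 16, max 1 (((L1 + 1) / c1) ^ 2), by positivity, ?_⟩
  intro T hT hfin
  have hT1 : 1 ≤ T := (le_max_left _ _).trans hT
  have hT2 : ((L1 + 1) / c1) ^ 2 ≤ T := (le_max_right _ _).trans hT
  have hTr : 0 ≤ T ^ (1 / 2 : ℝ) := Real.rpow_nonneg (by linarith) _
  have hTp : (T ^ (1 / 2 : ℝ)) ^ 2 = T := by
    rw [← Real.rpow_natCast, ← Real.rpow_mul (by linarith)]
    norm_num
  set L : ℝ := c1 * T ^ (1 / 2 : ℝ) with hL
  have hLL1 : L1 + 1 ≤ L := by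
    have h3 : (L1 + 1) / c1 ≤ T ^ (1 / 2 : ℝ) := by
      refine le_of_sq_le_sq ?_ hTr
      rw [hTp]
      exact hT2
    rw [div_le_iff₀ hc1pos] at h3
    rw [hL]
    linarith
  set i : ℕ := ⌊L⌋₊ with hi
  have hiL : (i : ℝ) ≤ L := Nat.floor_le (by linarith)
  have hLi : L < (i : ℝ) + 1 := Nat.lt_floor_add_one _
  have hiL1 : L1 ≤ (i : ℝ) := by linarith
  have hi2 : (2 : ℝ) ≤ i := by linarith
  have hi1 : 1 ≤ i := by
    have : (1 : ℝ) ≤ i := by linarith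
    exact_mod_cast this
  have hiT : C0 * (20 * (i : ℝ)) ^ 2 < T := by
    have h3 : (i : ℝ) ^ 2 ≤ c1 * T := by
      calc (i : ℝ) ^ 2 ≤ L ^ 2 := pow_le_pow_left₀ (by positivity) hiL 2
        _ = c1 ^ 2 * T := by rw [hL, mul_pow, hTp]
        _ ≤ c1 * T := by
            refine mul_le_mul_of_nonneg_right ?_ (by linarith)
            nlinarith
    calc C0 * (20 * (i : ℝ)) ^ 2 = 400 * C0 * (i : ℝ) ^ 2 := by ring
      _ ≤ 400 * C0 * (c1 * T) := mul_le_mul_of_nonneg_left h3 (by positivity)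
      _ = (400 * C0 * c1) * T := by ring
      _ < 1 * T := mul_lt_mul_of_pos_right hC1c1 (by linarith)
      _ = T := one_mul T
  -- the flats
  obtain ⟨A, B, C, D, hA, hB, hC, hD, hdet, hlam⟩ := hLL2 i hi1
  have hR : (1 : ℝ) ≤ 20 * i := by linarith
  have hmem : ∀ s : ℕ, flat Γ (gs i (s : ℤ)) Set.univ ∈ flats Γ T := by
    intro s
    exact hM _ (20 * i) A B C D hR hA hB hC hD hdet (hlam (s : ℤ)).1 (hlam (s : ℤ)).2 T hiT
  -- the number of parameters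
  obtain ⟨-, -, hQ0, -, -, -, -, h2i⟩ := Pool.FL4.seq i
  have hodd : Odd (4 * Pool.FL4.Q i + 1).toNat := by
    refine ⟨(2 * Pool.FL4.Q i).toNat, ?_⟩
    omega
  have hcard2 := Pool.FL4.sie _ hodd
  have h2N : 2 ^ i ≤ (4 * Pool.FL4.Q i + 1).toNat := by
    have h3 : ((2 ^ i : ℕ) : ℤ) ≤ (((4 * Pool.FL4.Q i + 1).toNat : ℕ) : ℤ) := by
      rw [Int.toNat_of_nonneg (by omega)]
      push_cast
      exact h2i
    exact_mod_cast h3
  have hcard : Real.exp ((i : ℝ) / 4) ≤ ((Pool.FL4.SS i).card : ℝ) := by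
    refine le_of_sq_le_sq ?_ (by positivity)
    have h3 : ((2 ^ i : ℕ) : ℝ) ≤ (((Pool.FL4.SS i).card ^ 2 : ℕ) : ℝ) := by
      exact_mod_cast h2N.trans hcard2
    push_cast at h3
    refine le_trans ?_ h3
    rw [← Real.exp_nat_mul]
    have h4 : ((2 : ℕ) : ℝ) * ((i : ℝ) / 4) = (i : ℝ) * (1 / 2) := by
      push_cast
      ring
    rw [h4, Real.exp_nat_mul]
    refine pow_le_pow_left₀ (Real.exp_pos _).le ?_ i
    have h5 : Real.exp (1 / 2) ^ 2 < 4 := by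
      rw [← Real.exp_nat_mul]
      have h6 : ((2 : ℕ) : ℝ) * (1 / 2) = 1 := by norm_num
      rw [h6]
      linarith [Real.exp_one_lt_d9]
    nlinarith [Real.exp_pos (1 / 2)]
  -- the fibres
  classical
  have hK : (0 : ℝ) ≤ C1 * (i : ℝ) ^ 3 := by positivity
  have hin : ∀ s ∈ Pool.FL4.SS i, ∀ S' : Finset ℕ, S' ⊆ Pool.FL4.SS i →
      (∀ s' ∈ S', ∃ (γ : HM) (d : Fin 2 → Fin 2 → ℝ), ∀ v, (gs i (s' : ℤ) v).1 =
        cm v γ.1 * (gs i (s : ℤ) v).1 * diagonal (d v)) → (S'.card : ℝ) ≤ C1 * (i : ℝ) ^ 3 :=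
    fun s hs S' hS' h => h2 i hi1 s hs S' hS' h
  have habs := hAB2 (Pool.FL4.SS i) (fun s : ℕ => gs i (s : ℤ)) (C1 * (i : ℝ) ^ 3) hK hin
  have hfib : ∀ F ∈ hfin.toFinset,
      (((Pool.FL4.SS i).filter fun s : ℕ => flat Γ (gs i (s : ℤ)) Set.univ = F).card : ℝ) ≤
        4 * (C1 * (i : ℝ) ^ 3) := by
    intro F hF
    have h3 := habs ((Pool.FL4.SS i).filter fun s : ℕ => flat Γ (gs i (s : ℤ)) Set.univ = F)
      (Finset.filter_subset _ _)
    refine h3 ?_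
    intro s hs s' hs'
    rw [Finset.mem_filter] at hs hs'
    exact hGTE Γ _ _ (hs.2.trans hs'.2.symm)
  have hcount : ((Pool.FL4.SS i).card : ℝ) ≤ (flats Γ T).ncard * (4 * (C1 * (i : ℝ) ^ 3)) := by
    have h3 : (Pool.FL4.SS i).card =
        ∑ F ∈ hfin.toFinset, ((Pool.FL4.SS i).filter fun s : ℕ => flat Γ (gs i (s : ℤ)) Set.univ = F).card := by
      refine Finset.card_eq_sum_card_fiberwise fun s _ => ?_
      rw [Finset.mem_coe, Set.Finite.mem_toFinset]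
      exact hmem s
    have h4 : ((Pool.FL4.SS i).card : ℝ) = ∑ F ∈ hfin.toFinset,
        (((Pool.FL4.SS i).filter fun s : ℕ => flat Γ (gs i (s : ℤ)) Set.univ = F).card : ℝ) := by
      exact_mod_cast congrArg (Nat.cast : ℕ → ℝ) h3
    rw [h4]
    refine (Finset.sum_le_sum hfib).trans ?_
    rw [Finset.sum_const, nsmul_eq_mul, Set.ncard_eq_toFinset_card _ hfin]
  have hb := hL0 (i : ℝ) ((le_max_left L0 2).trans hiL1)
  have h5 : Real.exp ((i : ℝ) / 4) ≤ (flats Γ T).ncard * Real.exp ((i : ℝ) / 8) :=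
    hcard.trans (hcount.trans (mul_le_mul_of_nonneg_left hb (by positivity)))
  have h6 : Real.exp ((i : ℝ) / 4) = Real.exp ((i : ℝ) / 8) * Real.exp ((i : ℝ) / 8) := by
    rw [← Real.exp_add]
    congr 1
    ring
  rw [h6] at h5
  have h7 : Real.exp ((i : ℝ) / 8) ≤ (flats Γ T).ncard := le_of_mul_le_mul_right h5 (Real.exp_pos _)
  refine le_trans (Real.exp_le_exp.mpr ?_) h7
  have h8 : c1 / 16 * T ^ (1 / 2 : ℝ) = L / 16 := by
    rw [hL]
    ring
  rw [h8]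
  linarith

end Pool.HMF
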