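import Pool.Agent.H29.HMF.Stmts

set_option autoImplicit false

open Matrix MeasureTheory

namespace Pool.HMF

theorem lf2_thm (hB : BASS) : LF2S := by
  obtain ⟨-, -, -, -, -, -, -, -, hmul, -, -, hone, -⟩ := hB
  intro g g' γ h
  have e1 : ∀ i, (g i).1 = cm i (γ⁻¹ : HM).1 * (g' i).1 := by
    intro i
    rw [h i, ← Matrix.mul_assoc, ← hmul]
    have : (γ⁻¹ : HM).1 * γ.1 = 1 := congrArg Subtype.val (inv_mul_cancel γ)
    rw [this, hone, Matrix.one_mul]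
  ext x
  constructor
  · rintro ⟨δ, v, hv, hx⟩
    refine ⟨δ * γ, v, hv, fun i => ?_⟩
    obtain ⟨k, hk, hx⟩ := hx i
    refine ⟨k, hk, ?_⟩
    rw [hx, h i]
    have : ((δ * γ : HM)).1 = δ.1 * γ.1 := rfl
    rw [this, hmul]
    simp only [Matrix.mul_assoc]
  · rintro ⟨δ, v, hv, hx⟩
    refine ⟨δ * γ⁻¹, v, hv, fun i => ?_⟩
    obtain ⟨k, hk, hx⟩ := hx i
    refine ⟨k, hk, ?_⟩
    rw [hx, e1 i]
    have : ((δ * γ⁻¹ : HM)).1 = δ.1 * (γ⁻¹ : HM).1 := rfl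
    rw [this, hmul]
    simp only [Matrix.mul_assoc]

end Pool.HMF
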