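import Pool.Agent.H12.HMF.NZ2
import Pool.Agent.H29.HMF.LF2
import Pool.Agent.H24.HMF.DT2
import Pool.Agent.H26.HMF.CT2
import Pool.Agent.H29.HMF.CL2
import Pool.Agent.H29.HMF.GFN
import Pool.Agent.H31.HMF.RL2
import Pool.Agent.H38.HMF.EQ2
import Pool.Agent.H40.HMF.GMB
import Pool.Agent.H41.HMF.MN2
import Pool.Agent.H51.HMF.DAT
import Pool.Agent.H52.HMF.AB2
import Pool.Agent.H53.HMF.SHT
import Pool.Agent.H29.HMF.BAS
import Pool.Agent.H55.HMF.MK2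
import Pool.Agent.H56.HMF.SB2
import Pool.Agent.H62.HMF.IR2
import Pool.Agent.H70.HMF.MF2
import Pool.Agent.H71.HMF.LL2
import Pool.Agent.H78.HMF.IJ2
import Pool.Agent.H78.HMF.GFB

/-!
# The rows of the board hmf (MP_e1ba20, Hilbert modular surfaces), put together
-/

set_option autoImplicit false

namespace Pool.HMF

open Pool.HMG (flat flats)

theorem up2All : UP2S :=
  have hBAS : BASS := bas_thm
  have hDAT : DATS := dat_thm
  have hMN2 : MN2S := mn2_thm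
  have hMF2 : MF2S := mf2_thm hBAS hDAT
  have hLF2 : LF2S := lf2_thm hBAS
  have hSB2 : SB2S := sb2_thm hBAS
  have hSHT : SHTS := sht_thm hBAS hDAT hMN2 hSB2
  have hNZ2 : NZ2S := nz2_thm hBAS
  have hIR2 : IR2S := ir2_thm hBAS
  have hDT2 : DT2S := dt2_thm hBAS
  have hIJ2 : IJ2S := ij2_thm hBAS hMF2 hLF2
  have hCT2 : CT2S := ct2_thm hBAS hNZ2 mk2_thm hDT2 hIJ2
  up2_thm hSHT hIR2 hCT2

theorem gupAll : GUPS :=
  gup_thm bas_thm up2All (gfb_thm bas_thm dat_thm (eq2_thm bas_thm mn2_thm))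

theorem gfnAll : GFNS :=
  have hBAS : BASS := bas_thm
  have hMN2 : MN2S := mn2_thm
  have hSB2 : SB2S := sb2_thm hBAS
  have hEQ2 : EQ2S := eq2_thm hBAS hMN2
  have hLL2 : LL2S := ll2_thm hBAS
  have hGMB : GMBS := gmb_thm hBAS hSB2
  have hRL2 : RL2S := rl2_thm hBAS
  have hCL2 : CL2S := cl2_thm hRL2
  have hAB2 : AB2S := ab2_thm hBAS hEQ2
  have hGTE : GTES := gte_thm hBAS.2.2.2.2.2.2.2.2.1
  gfn_thm hLL2 hGMB hCL2 hAB2 hGTE

theorem final (Γ : Subgroup HM) (hΓ : Γ.index ≠ 0) : ∃ c C T0 : ℝ, 0 < c ∧ 0 < C ∧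
    ∀ T : ℝ, T0 ≤ T → (flats Γ T).Finite ∧
      Real.exp (c * T ^ (1 / 2 : ℝ)) ≤ (flats Γ T).ncard ∧
      (flats Γ T).ncard ≤ Real.exp (C * T ^ (1 / 2 : ℝ)) := by
  obtain ⟨C, hC, h1⟩ := gupAll Γ hΓ
  obtain ⟨c, T0, hc, h2⟩ := gfnAll Γ hΓ
  refine ⟨c, C, max T0 1, hc, hC, fun T hT => ?_⟩
  obtain ⟨h3, h4⟩ := h1 T ((le_max_right _ _).trans hT)
  exact ⟨h3, h2 T ((le_max_left _ _).trans hT) h3, h4⟩

end Pool.HMF
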