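import Mathlib

/-!
# MP_e1ba20: compact flats of the Hilbert modular surface `SL_2(ℤ[√2]) \ (ℍ × ℍ)`, definitions
-/

set_option autoImplicit false

open Matrix MeasureTheory

namespace Pool.HMF

/-- `SL_2(ℝ)` -/
abbrev S2 : Type := Matrix.SpecialLinearGroup (Fin 2) ℝ

/-- the Hilbert modular group `SL_2(ℤ[√2])` -/
abbrev HM : Type := Matrix.SpecialLinearGroup (Fin 2) (ℤ√2)

/-- the two embeddings `a + b √2 ↦ a ± b √2` of `ℤ[√2]` in `ℝ` -/
noncomputable def em (i : Fin 2) (z : ℤ√2) : ℝ := (z.re : ℝ) + (![√2, -√2] : Fin 2 → ℝ) i * (z.im : ℝ)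

/-- the `i`-th embedding, for matrices -/
noncomputable def cm (i : Fin 2) (M : Matrix (Fin 2) (Fin 2) (ℤ√2)) : Matrix (Fin 2) (Fin 2) ℝ :=
  M.map (em i)

/-- the diagonal matrix with entries `e^v`, `e^(-v)` -/
noncomputable def dg (v : ℝ) : Matrix (Fin 2) (Fin 2) ℝ := diagonal ![Real.exp v, Real.exp (-v)]

/-- `Γ g exp(B) (SO(2) × SO(2))`, `Γ = SL_2(ℤ[√2])`, a subset of `SL_2(ℝ) × SL_2(ℝ)` -/
def flB (g : Fin 2 → S2) (B : Set (Fin 2 → ℝ)) : Set (Fin 2 → S2) :=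
  {h | ∃ γ : HM, ∃ v ∈ B, ∀ i, ∃ k : S2, k.1 * k.1ᵀ = 1 ∧
    (h i).1 = cm i γ.1 * (g i).1 * dg (v i) * k.1}

/-- the flat `Γ g A (SO(2) × SO(2))` -/
def fl (g : Fin 2 → S2) : Set (Fin 2 → S2) := flB g Set.univ

/-- the compact flats of area less than `T`: the flats that are equal to `Γ g exp(B) (SO(2) × SO(2))`
for a compact set `B` of area less than `T` -/
def NX (T : ℝ) : Set (Set (Fin 2 → S2)) :=
  {F | ∃ g, F = fl g ∧ ∃ B : Set (Fin 2 → ℝ), IsCompact B ∧ volume B < ENNReal.ofReal T ∧ F = flB g B}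

end Pool.HMF
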