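import Mathlib

/-!
# MP_e1ba20: compact flats of the Hilbert modular surfaces `Γ \ (ℍ × ℍ)`, `Γ ⊆ SL_2(ℤ[√2])`, definitions
-/

set_option autoImplicit false

open Matrix MeasureTheory

namespace Pool.HMG

/-- `SL_2(ℝ)` -/
abbrev S2 : Type := Matrix.SpecialLinearGroup (Fin 2) ℝ

/-- the Hilbert modular group `SL_2(ℤ[√2])` -/
abbrev HM : Type := Matrix.SpecialLinearGroup (Fin 2) (ℤ√2)

/-- the two embeddings `a + b √2 ↦ a ± b √2` of `ℤ[√2]` in `ℝ` -/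
noncomputable def em (i : Fin 2) (z : ℤ√2) : ℝ := (z.re : ℝ) + (![√2, -√2] : Fin 2 → ℝ) i * (z.im : ℝ)

/-- the diagonal matrix with entries `e^v`, `e^(-v)` -/
noncomputable def dg (v : ℝ) : Matrix (Fin 2) (Fin 2) ℝ := diagonal ![Real.exp v, Real.exp (-v)]

/-- `Γ g exp(B) (SO(2) × SO(2))`, a subset of `SL_2(ℝ) × SL_2(ℝ)` -/
def flat (Γ : Subgroup HM) (g : Fin 2 → S2) (B : Set (Fin 2 → ℝ)) : Set (Fin 2 → S2) :=
  {h | ∃ γ ∈ Γ, ∃ v ∈ B, ∀ i, ∃ k : S2, k.1 * k.1ᵀ = 1 ∧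
    (h i).1 = γ.1.map (em i) * (g i).1 * dg (v i) * k.1}

/-- the compact flats of area less than `T`: the flats `Γ g A (SO(2) × SO(2))` that are equal to
`Γ g exp(B) (SO(2) × SO(2))` for a compact set `B` of area less than `T` -/
def flats (Γ : Subgroup HM) (T : ℝ) : Set (Set (Fin 2 → S2)) :=
  {F | ∃ g, F = flat Γ g Set.univ ∧ ∃ B : Set (Fin 2 → ℝ), IsCompact B ∧ volume B < ENNReal.ofReal T ∧
    F = flat Γ g B}

end Pool.HMG
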