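import Pool.Agent.H29.HMF.Defs
import Pool.Agent.H29.FL4.All

/-!
# MP_e1ba20, `SL_2(ℤ[√2]) \ (ℍ × ℍ)`: `exp (c T^(1/2)) ≤ N_X(T) ≤ exp (C T^(1/2))`, statements of the rows

Rows: Props `XXXS`; deliver `theorem xxx_thm : XXXS` in `Pool/Agent/H<k>/HMF/XXX.lean`, namespace
`Pool.HMF`, needed rows as hypotheses `(h : YYYS)` in the order of the column `needs`. All rows of the
board fl4 are theorems of `Pool.FL4` (`Pool.FL4.seq`, `Pool.FL4.pos Pool.FL4.seq`, ...) and may be used;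
the rows of flt are theorems of `Pool.FLT`. The proofs there are models (names in the docstrings).
-/

set_option autoImplicit false

open Matrix MeasureTheory

namespace Pool.HMF

/-- diagonal (`p = false`) or antidiagonal (`p = true`) -/
def Mon (p : Bool) (M : Matrix (Fin 2) (Fin 2) ℝ) : Prop :=
  (p = false ∧ M 0 1 = 0 ∧ M 1 0 = 0) ∨ (p = true ∧ M 0 0 = 0 ∧ M 1 1 = 0)

/-- the sign of a pattern -/
def sg (p : Bool) : ℝ := if p then -1 else 1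

/-- `cm i η * g i = g i * (± dg (l i))` -/
def Rel (g : Fin 2 → S2) (η : HM) (l ε : Fin 2 → ℝ) : Prop :=
  ∀ i, ε i ^ 2 = 1 ∧ cm i η.1 * (g i).1 = (g i).1 * (ε i • dg (l i))

/-- logarithms of the eigenvalues of the elements of `Γ` which are diagonal in the bases `g` -/
def Lam (g : Fin 2 → S2) : Set (Fin 2 → ℝ) := {l | ∃ (η : HM) (ε : Fin 2 → ℝ), Rel g η l ε}

/-- the coordinates of the images of `v` in the bases `g i` -/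
noncomputable def cv (g : Fin 2 → S2) (v : Fin 2 → ℤ√2) (i : Fin 2) : Fin 2 → ℝ :=
  ((g i)⁻¹ : S2).1.mulVec fun a => em i (v a)

/-- no vector of `ℤ[√2]²` lies on a line `ℝ e_(j i)` in both places -/
def Irr (g : Fin 2 → S2) : Prop := ∀ v : Fin 2 → ℤ√2, v ≠ 0 → ∀ j : Fin 2 → Fin 2, ∃ i, cv g v i (j i) ≠ 0

/-- the matrix with columns `v, η v` -/
def Wm (η : HM) (v : Fin 2 → ℤ√2) : Matrix (Fin 2) (Fin 2) (ℤ√2) :=
  !![v 0, η.1.mulVec v 0; v 1, η.1.mulVec v 1]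

/-! ### Basic facts -/

/-- BAS: `em i` is an injective ring homomorphism -/
def BASS : Prop := (∀ i x y, em i (x * y) = em i x * em i y) ∧ (∀ i x y, em i (x + y) = em i x + em i y) ∧
  (∀ i x, em i (-x) = - em i x) ∧ (∀ i, em i 1 = 1) ∧ (∀ i, em i 0 = 0) ∧ (∀ i x y, em i x = em i y → x = y) ∧
  (∀ x, em 0 x * em 1 x = ((x.re ^ 2 - 2 * x.im ^ 2 : ℤ) : ℝ)) ∧ (∀ x, x ≠ 0 → 1 ≤ |em 0 x * em 1 x|) ∧
  (∀ i A B, cm i (A * B) = cm i A * cm i B) ∧ (∀ i A, (cm i A).det = em i A.det) ∧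
  (∀ i A, (cm i A).trace = em i A.trace) ∧ (∀ i, cm i 1 = 1) ∧
  (∀ i A (v : Fin 2 → ℤ√2), (fun a => em i (A.mulVec v a)) = (cm i A).mulVec fun a => em i (v a))

/-- DAT: a monomial matrix acts on `ℝ` by `x ↦ ± x + t`; `t` is the logarithm of the absolute value of
the nonzero entry of the first row. Uniqueness: `(M dg x) (M dg x)ᵀ = dg (2 y)`. -/
def DATS : Prop := ∀ (M : S2) (p : Bool), Mon p M.1 → ∃ t : ℝ,
  (∀ x : ℝ, ∃ k : S2, k.1 * k.1ᵀ = 1 ∧ M.1 * dg x = dg (sg p * x + t) * k.1) ∧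
  (∀ (x y : ℝ) (k : S2), k.1 * k.1ᵀ = 1 → M.1 * dg x = dg y * k.1 → y = sg p * x + t)

/-- MN2: the entry `(0, 1)` of `(M dg x) (M dg x)ᵀ = dg (2 y)` is `M00 M10 e^(2x) + M01 M11 e^(-2x) = 0`. -/
def MN2S : Prop := ∀ M : S2, ¬ Mon false M.1 → ¬ Mon true M.1 → ∀ (x x' y y' : ℝ) (k k' : S2),
  k.1 * k.1ᵀ = 1 → k'.1 * k'.1ᵀ = 1 → M.1 * dg x = dg y * k.1 → M.1 * dg x' = dg y' * k'.1 → x = x'

/-- EQ2 (from BAS, MN2). For every `v` there is `γ` with `g dg v = γ g0 dg y k`; countably many `γ`; if for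
each `γ` one of the two matrices `(γ g0 i)⁻¹ g i` is not monomial, `ℝ²` is a countable union of subsets of
lines, of measure zero. Model: `Pool/Agent/H34/FLT/EQF.lean`. -/
def EQ2S : Prop := ∀ g g0 : Fin 2 → S2, fl g = fl g0 → ∃ (γ : HM) (M : Fin 2 → S2) (p : Fin 2 → Bool),
  (∀ i, Mon (p i) (M i).1) ∧ ∀ i, (g i).1 = cm i γ.1 * (g0 i).1 * (M i).1

/-- MF2 (from BAS, DAT) -/
def MF2S : Prop := ∀ (g M : Fin 2 → S2) (p : Fin 2 → Bool), (∀ i, Mon (p i) (M i).1) →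
  fl (fun i => g i * M i) = fl g

/-- LF2 (from BAS): `fl (γ g) = fl g` for `γ ∈ Γ` -/
def LF2S : Prop := ∀ (g g' : Fin 2 → S2) (γ : HM), (∀ i, (g' i).1 = cm i γ.1 * (g i).1) → fl g' = fl g

/-- SB2 (from BAS) -/
def SB2S : Prop := ∀ (g : Fin 2 → S2), (0 : Fin 2 → ℝ) ∈ Lam g ∧ (∀ a ∈ Lam g, ∀ b ∈ Lam g, a - b ∈ Lam g) ∧
  (∀ a ∈ Lam g, ∀ b ∈ Lam g, a + b ∈ Lam g) ∧ ∀ a ∈ Lam g, ∀ n : ℤ, n • a ∈ Lam g

/-! ### Upper bound -/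

/-- SHT (from BAS, DAT, MN2, SB2). `v ∈ ℝ²`: `g dg v = γ g dg b k`, `b ∈ B`, `N i = (g i)⁻¹ γ⁻¹ g i`. The `v` for which
some `N i` is not monomial are in a null set (MN2, countably many `γ`). Otherwise `b i = sg (p i) v i + t i`, where
`(p, t)` runs over a countable set `D` of data; two data with the same `p` have `sg (p i) (t' i - t i)`, `i = 0, 1`, in `Lam g`
(`(N i)⁻¹ N' i = (g i)⁻¹ γ γ'⁻¹ g i` is diagonal). If no nonzero element of `Lam g` has coordinates `≤ ρ = 2 √T + 1`,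
then for `U = [0, ρ]²` and fixed `p` the sets `{b ∈ B : v = sg (p) (b - t) ∈ U}`, `(p, t) ∈ D`, are disjoint, so
`vol U ≤ 4 vol B < 4 T`, a contradiction. -/
def SHTS : Prop := ∀ (g : Fin 2 → S2) (B : Set (Fin 2 → ℝ)) (T : ℝ), 1 ≤ T → IsCompact B →
  volume B < ENNReal.ofReal T → fl g = flB g B → ∃ l ∈ Lam g, l ≠ 0 ∧ ∀ i, |l i| ≤ 2 * √T + 1

/-- NZ2 (from BAS). `em i (trace η) = ± 2 cosh (l i)`; if `l 0 = 0`, then `trace η = ± 2`, so `l 1 = 0`. -/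
def NZ2S : Prop := ∀ (g : Fin 2 → S2), ∀ l ∈ Lam g, l ≠ 0 → ∀ i, l i ≠ 0

/-- IR2 (from BAS). Let `cv g v i (j i) = 0` for `i = 0, 1`, `v ≠ 0`. For `z i = s` (if `j i = 1`; `-s` if `j i = 0`),
`|(g i dg (z i))⁻¹ v|` tends to `0` for `s → ∞`, both `i`. But `g dg z = γ g dg b k`, `b ∈ B`, and with
`w = γ⁻¹ v ≠ 0`: `|(g i dg (z i))⁻¹ v| = |(g i dg (b i))⁻¹ w| ≥ c |w i|`, `c` depending on `B`, and the product
over `i` of `|w i|` is at least `|em 0 w_a em 1 w_a| ≥ 1` for a coordinate `w_a ≠ 0`. -/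
def IR2S : Prop := ∀ (g : Fin 2 → S2) (B : Set (Fin 2 → ℝ)), IsCompact B → fl g = flB g B → Irr g

/-- MK2: Minkowski (`Pool.FLT.mnk : MNKStmt` with `n = 4`, the matrix of `ℤ[√2]² → ℝ⁴` has determinant `± 8`,
`2 · 8^(1/4) ≤ 4`; or any other proof) -/
def MK2S : Prop := ∀ g : Fin 2 → S2, ∃ v : Fin 2 → ℤ√2, v ≠ 0 ∧ ∀ i j, |cv g v i j| ≤ 4

/-- DT2 (from BAS) -/
def DT2S : Prop := ∀ (g : Fin 2 → S2) (η : HM) (l ε : Fin 2 → ℝ) (v : Fin 2 → ℤ√2), Rel g η l ε →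
  ∀ i, em i (Wm η v).det = ε i * (Real.exp (-l i) - Real.exp (l i)) * (cv g v i 0 * cv g v i 1)

/-- IJ2 (from BAS, MF2, LF2). `W = Wm η v`, `W' = Wm η' v'`, `m = det W`: `η W = W C`, `η' W' = W' C` with the same
companion matrix `C = !![0, -1; 1, trace]`. `W' = W + m E = (1 + E adj(W)) W`, `U = 1 + E adj(W)` has determinant one,
`η' = U η U⁻¹`; `M i = (U g i)⁻¹ g' i` satisfies `D i M i = M i D' i` (`D`, `D'` the diagonal matrices, distinct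
entries, same trace and determinant), so it is monomial. Model: `Pool/Agent/H22/FLT/INJ.lean`. -/
def IJ2S : Prop := ∀ (g g' : Fin 2 → S2) (η η' : HM) (l l' ε ε' : Fin 2 → ℝ) (v v' : Fin 2 → ℤ√2),
  Rel g η l ε → Rel g' η' l' ε' → (∀ i, l i ≠ 0) → η.1.trace = η'.1.trace →
  (Wm η v).det = (Wm η' v').det → (Wm η v).det ≠ 0 →
  (∀ a b, (Wm η v).det ∣ (Wm η' v') a b - (Wm η v) a b) → fl g = fl g'

/-- CT2 (from BAS, NZ2, MK2, DT2, IJ2). `F` is determined by `trace η` (`|em i| ≤ 2 e^E`), `m = det W` (nonzero by `Irr`,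
`|em i m| ≤ 16 · 2 e^E`), and the entries of `W` modulo the integer `|norm m|`. Model: `Pool/Agent/H5/FLT/ORB.lean`. -/
def CT2S : Prop := ∃ C : ℝ, 0 < C ∧ ∀ E : ℝ, 1 ≤ E →
  {F | ∃ g : Fin 2 → S2, F = fl g ∧ Irr g ∧ ∃ l ∈ Lam g, l ≠ 0 ∧ ∀ i, |l i| ≤ E}.Finite ∧
  ({F | ∃ g : Fin 2 → S2, F = fl g ∧ Irr g ∧ ∃ l ∈ Lam g, l ≠ 0 ∧ ∀ i, |l i| ≤ E}.ncard : ℝ) ≤
    Real.exp (C * E)

/-- UP2 (from SHT, IR2, CT2) -/
def UP2S : Prop := ∃ C : ℝ, 0 < C ∧ ∀ T : ℝ, 1 ≤ T → (NX T).Finite ∧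
  ((NX T).ncard : ℝ) ≤ Real.exp (C * T ^ (1 / 2 : ℝ))

/-! ### Lower bound -/

/-- the place `v` in the index set of `Pool.FL4` -/
def ix : Fin 2 → Fin 4 := ![0, 2]

open Classical in
/-- the second column is divided by the determinant -/
noncomputable def nrm2 (B : Matrix (Fin 2) (Fin 2) ℝ) : S2 :=
  if h : B.det ≠ 0 then
    ⟨B * diagonal ![1, B.det⁻¹], by
      rw [Matrix.det_mul, Matrix.det_diagonal, Fin.prod_univ_two]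
      simp [h]⟩
  else 1

/-- the rows are the images of the basis `y - s`, `β` of the `ℤ[√2]`-module `Λ_s` -/
noncomputable def Ms (i : ℕ) (s : ℤ) (v : Fin 2) : Matrix (Fin 2) (Fin 2) ℝ :=
  !![Pool.FL4.yy i (ix v) - s, - Pool.FL4.yy i (ix v) - s; Pool.FL4.be i (ix v), Pool.FL4.be i (ix v)]

/-- the base point of the flat of `Λ_s` -/
noncomputable def gs (i : ℕ) (s : ℤ) (v : Fin 2) : S2 := nrm2 (Ms i s v)

/-- LL2 (`Pool.FL4`: pos, alg, lgs). For `ξ = κ + μ β y` of relative norm one (`w₁²`, `w₂⁴` of ALG) the matrix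
`η = !![κ - s β μ, (β² - 1 - s²) μ; β² μ, κ + s β μ]` over `ℤ[√2]` has determinant one and
`cm v η * Ms = Ms * diagonal ![ξ, ξ⁻¹]`, `ξ > 0`. -/
def LL2S : Prop := ∀ i : ℕ, 1 ≤ i → ∃ A B C D : ℝ, |A| ≤ 20 * i ∧ |B| ≤ 20 * i ∧ |C| ≤ 20 * i ∧
  |D| ≤ 20 * i ∧ A * D - B * C ≠ 0 ∧ ∀ s : ℤ, ![A, B] ∈ Lam (gs i s) ∧ ![C, D] ∈ Lam (gs i s)

/-- MB2 (from BAS, SB2). Box `|v i| ≤ 2 R`, area `16 R²`. -/
def MB2S : Prop := ∀ (g : Fin 2 → S2) (R A B C D : ℝ), 1 ≤ R → |A| ≤ R → |B| ≤ R → |C| ≤ R → |D| ≤ R →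
  A * D - B * C ≠ 0 → ![A, B] ∈ Lam g → ![C, D] ∈ Lam g → ∀ T : ℝ, 16 * R ^ 2 < T → fl g ∈ NX T

/-- RL2 (from BAS; `Pool.FL4.pos`). `Ms i s' v = cm v γ * Ms i s v * diagonal (d' v)`; both `inL` are the sets of
combinations with coefficients in `ℤ[√2]` of the rows; index `ix v` is column `0`, the next one column `1`. -/
def RL2S : Prop := ∀ i : ℕ, 1 ≤ i → ∀ (s s' : ℤ) (γ : HM) (d : Fin 2 → Fin 2 → ℝ),
  (∀ v, (gs i s' v).1 = cm v γ.1 * (gs i s v).1 * diagonal (d v)) → ∃ d' : Fin 4 → ℝ, Pool.FL4.Eqv i s s' d'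

/-- CL2 (from RL2; `Pool.FL4`: RED, IJ4, FB4). As `Pool/Agent/H29/FL4/CLS.lean`. -/
def CL2S : Prop := ∃ C : ℝ, 0 < C ∧ ∀ i : ℕ, 1 ≤ i → ∀ s ∈ Pool.FL4.SS i, ∀ S : Finset ℕ, S ⊆ Pool.FL4.SS i →
  (∀ s' ∈ S, ∃ (γ : HM) (d : Fin 2 → Fin 2 → ℝ), ∀ v, (gs i (s' : ℤ) v).1 =
    cm v γ.1 * (gs i (s : ℤ) v).1 * diagonal (d v)) → (S.card : ℝ) ≤ C * (i : ℝ) ^ 3

/-- AB2 (from BAS, EQ2). Choose `s0 ∈ S'`; `g s = γ_s (g s0) M_s` with pattern `p_s` (four patterns); for equal patterns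
`(M_s i)⁻¹ (M_s' i)` is diagonal. Model: `Pool/Agent/H31/FL4/ABS.lean`. -/
def AB2S : Prop := ∀ (S : Finset ℕ) (g : ℕ → Fin 2 → S2) (K : ℝ), 0 ≤ K →
  (∀ s ∈ S, ∀ S' : Finset ℕ, S' ⊆ S → (∀ s' ∈ S', ∃ (γ : HM) (d : Fin 2 → Fin 2 → ℝ), ∀ v,
    (g s' v).1 = cm v γ.1 * (g s v).1 * diagonal (d v)) → (S'.card : ℝ) ≤ K) →
  ∀ S' : Finset ℕ, S' ⊆ S → (∀ s ∈ S', ∀ s' ∈ S', fl (g s) = fl (g s')) → (S'.card : ℝ) ≤ 4 * K

/-- FN2 (from LL2, MB2, CL2, AB2; `Pool.FL4`: seq, sie). As `Pool/Agent/H29/FL4/FN4.lean`. -/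
def FN2S : Prop := ∃ (c T0 : ℝ), 0 < c ∧
  ∀ T : ℝ, T0 ≤ T → (NX T).Finite → Real.exp (c * T ^ (1 / 2 : ℝ)) ≤ ((NX T).ncard : ℝ)

end Pool.HMF
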