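import Pool.Agent.H29.HMF.Stmts
import Pool.Agent.H29.HMF.GDefs

/-!
# MP_e1ba20, `Γ \ (ℍ × ℍ)`, `Γ` of finite index in `SL_2(ℤ[√2])`, statements of the additional rows

`Pool.HMG.em = Pool.HMF.em` and so on hold by `rfl`.
-/

set_option autoImplicit false

open Matrix MeasureTheory

namespace Pool.HMF

open Pool.HMG (flat flats)

/-- GTE: equal flats for `Γ` give equal flats for `SL_2(ℤ[√2])` -/
def GTES : Prop := ∀ (Γ : Subgroup HM) (g g' : Fin 2 → S2),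
  flat Γ g Set.univ = flat Γ g' Set.univ → fl g = fl g'

/-- GFB (from BAS, DAT, EQ2). `g = γ g0 M` (EQ2), `flat Γ g = flat Γ (γ g0)` (as in MF2) depends only on the coset
`Γ γ`. Model: `Pool/Agent/H49/FLT/FBR.lean`. -/
def GFBS : Prop := ∀ Γ : Subgroup HM, Γ.index ≠ 0 → ∀ g0 : Fin 2 → S2,
  {F : Set (Fin 2 → S2) | ∃ g, F = flat Γ g Set.univ ∧ fl g = fl g0}.Finite ∧
  {F : Set (Fin 2 → S2) | ∃ g, F = flat Γ g Set.univ ∧ fl g = fl g0}.ncard ≤ Γ.index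

/-- GMB (from BAS, SB2). `m = (Γ.index)!`: for `l ∈ Lam g` with `η` one has `η ^ m ∈ Γ` (some power `η ^ k`, `1 ≤ k ≤ index`,
lies in `Γ`: `Pool/Agent/H15/FLT/SQR.lean`), so translations by `m l` are realised in `Γ`. Box
`|v i| ≤ 2 m R`, area `16 m² R²`; `C0 = 16 m²`. As row MB2. -/
def GMBS : Prop := ∀ Γ : Subgroup HM, Γ.index ≠ 0 → ∃ C0 : ℝ, 0 < C0 ∧
  ∀ (g : Fin 2 → S2) (R A B C D : ℝ), 1 ≤ R → |A| ≤ R → |B| ≤ R → |C| ≤ R → |D| ≤ R →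
  A * D - B * C ≠ 0 → ![A, B] ∈ Lam g → ![C, D] ∈ Lam g → ∀ T : ℝ, C0 * R ^ 2 < T →
  flat Γ g Set.univ ∈ flats Γ T

/-- GUP (from UP2, GFB) -/
def GUPS : Prop := ∀ Γ : Subgroup HM, Γ.index ≠ 0 → ∃ C : ℝ, 0 < C ∧ ∀ T : ℝ, 1 ≤ T →
  (flats Γ T).Finite ∧ ((flats Γ T).ncard : ℝ) ≤ Real.exp (C * T ^ (1 / 2 : ℝ))

/-- GFN (from LL2, GMB, CL2, AB2, GTE) -/
def GFNS : Prop := ∀ Γ : Subgroup HM, Γ.index ≠ 0 → ∃ (c T0 : ℝ), 0 < c ∧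
  ∀ T : ℝ, T0 ≤ T → (flats Γ T).Finite → Real.exp (c * T ^ (1 / 2 : ℝ)) ≤ ((flats Γ T).ncard : ℝ)

end Pool.HMF
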